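import Pool.Agent.Q275.Skel.Full

set_option autoImplicit false

/-!
MP_7a056a_gt, Q1 (true): every normal functor in the category of compact Hausdorff spaces which is
finitely square-skeletal is skeletal.
-/

universe u

namespace Pool.Agent.Results.MP_7a056a_gt.SquareSkeletalSkeletal

open CategoryTheory Q178.Functors

/-- **Q1 is true.** Let `F` be a normal functor (in the sense of Shchepin) in the category of
compact Hausdorff spaces. If `F` is finitely square-skeletal (it maps skeletal squares of
surjections between finite spaces to skeletal squares), then `F` is skeletal (it maps open
surjections to skeletal maps). -/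
theorem result (F : CompHaus.{u} ⥤ CompHaus.{u}) (hF : IsNormal F)
    (hs : IsFinitelySquareSkeletal F) : IsSkeletalFunctor F :=
  Q275.Skel.full hF hs

end Pool.Agent.Results.MP_7a056a_gt.SquareSkeletalSkeletal
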